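import Pool.Agent.KDS.StmtsB
import Pool.Agent.Helper88_SZT.MSM

set_option autoImplicit false

/-!
# Squad KDS, row GLS: the main inequality
-/

namespace Pool.Agent.KDS.H8

open Polynomial NumberField H58Q Pool.Agent.SZT Pool.Agent.KDT

theorem gls (hGLF : GlfStatement) (hGLI : GliStatement) (hGLN : GlnStatement)
    (hPFS : SZT.PfsStatement) (hQVN : SZT.QvnStatement) (hDSH : SZT.DshStatement) :
    GlsStatement := by
  classical
  obtain ⟨c2, hc2, hL1⟩ := hGLF
  intro i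
  obtain ⟨Ck, hCk, hL2⟩ := hGLI i
  have hl2 : 0 ≤ Real.log 2 := Real.log_nonneg (by norm_num)
  refine ⟨Ck + i * 10 ^ i * (2 * c2 * Real.log 2), by positivity, ?_⟩
  intro K _ _ f m₀ n₀ M I A B U W k Γ S hf hdeg hsq hint hI hdiv hΓ hS hVG hdet
  set D : K := (Matrix.of fun (j q : QI i) =>
    ∏ a : Fin i, mon (q a).1 (kum f (A j a) (B j a))).det with hD
  obtain ⟨hD0, -, -, -, -, -⟩ := hDSH K f hf hdeg hsq hint
  have hv1 : ∀ (v : FinitePlace K) (n : ℕ), v (f.coeff n) ≤ 1 := fun v n =>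
    SZT.H88M.le_one_of_isIntegral v (hint n)
  have hVG2 : ∀ j : QI i, ∀ a ≤ i, VG f (A j a) (B j a) ∧ Gen f (A j a) (B j a) (U j a) (W j a) M :=
    fun j a ha => ⟨(hVG j a ha).1, (hVG j a ha).2.1⟩
  -- the product formula for `Lv`
  have hPF : ∀ p : QI i × Fin i, ∃ T₀ : Finset (FinitePlace K),
      ∀ T : Finset (FinitePlace K), T₀ ⊆ T →
      ∑ v : InfinitePlace K, (v.mult : ℝ) * Lv v f (A p.1 p.2) (U p.1 p.2) M +
        ∑ v ∈ T, Lv v f (A p.1 p.2) (U p.1 p.2) M = 0 :=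
    fun p => hPFS K f (A p.1 p.2) (U p.1 p.2) M (hVG p.1 p.2 p.2.2.le).1.1.cop
      (hVG p.1 p.2 p.2.2.le).2.1.cop
  choose T₀ hT₀ using hPF
  obtain ⟨T1, hT1⟩ := SZT.H88M.fin_supp (K := K) hD0
  obtain ⟨T2, hT2⟩ := SZT.H88M.fin_supp (K := K) (x := 2) two_ne_zero
  obtain ⟨T3, hT3⟩ := SZT.H88M.fin_supp (K := K) hdet
  set T : Finset (FinitePlace K) := (((Finset.univ.biUnion T₀ ∪ T1) ∪ T2) ∪ T3) ∪ S with hT
  have hST : S ⊆ T := Finset.subset_union_right
  have hLL : ∑ v : InfinitePlace K, (v.mult : ℝ) *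
        (∑ j : QI i, ∑ a : Fin i, 2 * Lv v f (A j a) (U j a) M) +
      ∑ v ∈ T, ∑ j : QI i, ∑ a : Fin i, 2 * Lv v f (A j a) (U j a) M = 0 := by
    have h1 : ∀ p : QI i × Fin i,
        ∑ v : InfinitePlace K, (v.mult : ℝ) * Lv v f (A p.1 p.2) (U p.1 p.2) M +
        ∑ v ∈ T, Lv v f (A p.1 p.2) (U p.1 p.2) M = 0 := by
      intro p
      apply hT₀ p T
      intro v hv
      simp only [hT, Finset.mem_union]
      exact Or.inl (Or.inl (Or.inl (Or.inl
        (Finset.mem_biUnion.2 ⟨p, Finset.mem_univ p, hv⟩))))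
    have h2 : ∑ p : QI i × Fin i,
        (∑ v : InfinitePlace K, (v.mult : ℝ) * Lv v f (A p.1 p.2) (U p.1 p.2) M +
        ∑ v ∈ T, Lv v f (A p.1 p.2) (U p.1 p.2) M) = 0 := Finset.sum_eq_zero fun p _ => h1 p
    rw [Finset.sum_add_distrib, Finset.sum_comm, Finset.sum_comm (s := Finset.univ) (t := T)] at h2
    simp only [← Finset.mul_sum] at h2
    have h3 : ∀ v : K → ℝ,
        (∑ j : QI i, ∑ a : Fin i, 2 * Lv v f (A j a) (U j a) M) =
        2 * ∑ p : QI i × Fin i, Lv v f (A p.1 p.2) (U p.1 p.2) M := by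
      intro v
      rw [Fintype.sum_prod_type, Finset.mul_sum]
      exact Finset.sum_congr rfl fun j _ => by rw [Finset.mul_sum]
    have h4 : ∑ v : InfinitePlace K, (v.mult : ℝ) *
        (∑ j : QI i, ∑ a : Fin i, 2 * Lv v f (A j a) (U j a) M) =
        2 * ∑ v : InfinitePlace K, (v.mult : ℝ) *
          ∑ p : QI i × Fin i, Lv v f (A p.1 p.2) (U p.1 p.2) M := by
      rw [Finset.mul_sum]
      exact Finset.sum_congr rfl fun v _ => by rw [h3 v]; ring
    have h5 : ∑ v ∈ T, ∑ j : QI i, ∑ a : Fin i, 2 * Lv v f (A j a) (U j a) M =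
        2 * ∑ v ∈ T, ∑ p : QI i × Fin i, Lv v f (A p.1 p.2) (U p.1 p.2) M := by
      rw [Finset.mul_sum]
      exact Finset.sum_congr rfl fun v _ => h3 v
    rw [h4, h5, ← mul_add, h2, mul_zero]
  have hd := SZT.H88M.logprod hD0 T (fun v hv => by
    simp only [hT, Finset.mem_union]
    exact Or.inl (Or.inl (Or.inl (Or.inr (hT1 v hv)))))
  have h2 := SZT.H88M.log_two (K := K) T (fun v hv => by
    simp only [hT, Finset.mem_union]
    exact Or.inl (Or.inl (Or.inr (hT2 v hv))))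
  have h3 := SZT.H88M.logprod hdet T (fun v hv => by
    simp only [hT, Finset.mem_union]
    exact Or.inl (Or.inr (hT3 v hv)))
  have hS2 : ∀ v ∈ S, v (2 : K) = 1 := fun v hv => (hS v hv).1.1
  have hs2 : ∑ v ∈ S, Real.log (v (2 : K)) = 0 :=
    Finset.sum_eq_zero fun v hv => by rw [hS2 v hv, Real.log_one]
  have e0 := Finset.sum_sdiff (f := fun v : FinitePlace K => Real.log (v D)) hST
  have e1 := Finset.sum_sdiff
    (f := fun v : FinitePlace K => ∑ j : QI i, ∑ a : Fin i, 2 * Lv v f (A j a) (U j a) M) hST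
  have e2 := Finset.sum_sdiff (f := fun v : FinitePlace K => Real.log (v (discr f))) hST
  have e3 := Finset.sum_sdiff (f := fun v : FinitePlace K => Real.log (v (2 : K))) hST
  -- the infinite places
  have b1 : ∑ v : InfinitePlace K, (v.mult : ℝ) * Real.log (v D) ≤
      (∑ v : InfinitePlace K, (v.mult : ℝ) *
        (∑ j : QI i, ∑ a : Fin i, 2 * Lv v f (A j a) (U j a) M)) -
      i * 10 ^ i * (∑ v : InfinitePlace K, (v.mult : ℝ) * Real.log (v (discr f))) +
      17 * i * 10 ^ i * lH f + Ck * Module.finrank ℚ K := by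
    have hm : (Module.finrank ℚ K : ℝ) = ∑ v : InfinitePlace K, (v.mult : ℝ) := by
      rw [← Nat.cast_sum, InfinitePlace.sum_mult_eq]
    rw [hm, lH, Finset.mul_sum, Finset.mul_sum, Finset.mul_sum,
      ← Finset.sum_sub_distrib, ← Finset.sum_add_distrib, ← Finset.sum_add_distrib]
    apply Finset.sum_le_sum
    intro v _
    have h4 := mul_le_mul_of_nonneg_left
      (hL2 K v f M A B U W hf hdeg hsq hVG2 hdet)
      (Nat.cast_nonneg (α := ℝ) v.mult)
    refine h4.trans (le_of_eq ?_)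
    ring
  -- the finite places outside of `S`
  have b2 : ∑ v ∈ T \ S, Real.log (v D) ≤
      (∑ v ∈ T \ S, ∑ j : QI i, ∑ a : Fin i, 2 * Lv v f (A j a) (U j a) M) -
      i * 10 ^ i * ((∑ v ∈ T \ S, Real.log (v (discr f))) +
        2 * c2 * ∑ v ∈ T \ S, Real.log (v (2 : K))) := by
    rw [Finset.mul_sum, ← Finset.sum_add_distrib, Finset.mul_sum, ← Finset.sum_sub_distrib]
    exact Finset.sum_le_sum fun v _ => hL1 K v f i M A B U W hf hdeg hsq (hv1 v) hVG2 hdet
  -- the nodes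
  have b3 : ∑ v ∈ S, Real.log (v D) ≤
      (∑ v ∈ S, ∑ j : QI i, ∑ a : Fin i, 2 * Lv v f (A j a) (U j a) M) +
      Γ * (∑ v ∈ S with
        ¬ v (discr f) * (Ideal.absNorm v.maximalIdeal.asIdeal : ℝ) ^ n₀ < 1,
          Real.log (v (discr f))) - i * 10 ^ i / 2 * (∑ v ∈ S with
        v (discr f) * (Ideal.absNorm v.maximalIdeal.asIdeal : ℝ) ^ n₀ < 1,
          Real.log (v (discr f))) := by
    rw [Finset.sum_filter, Finset.sum_filter, Finset.mul_sum, Finset.mul_sum,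
      ← Finset.sum_add_distrib, ← Finset.sum_sub_distrib]
    apply Finset.sum_le_sum
    intro v hv
    obtain ⟨hnode, hlt⟩ := hS v hv
    obtain ⟨n, hn, hq⟩ := hQVN K v (discr f) hD0 hlt
    have h4 := hGLN K v f n m₀ n₀ i M I A B U W k Γ hf hdeg hsq hnode hn hq hI hdiv hΓ hVG hdet
    have hDp : 0 < v (discr f) := FinitePlace.pos_iff.mpr hD0
    have hq0 : (0 : ℝ) ≤ (Ideal.absNorm v.maximalIdeal.asIdeal : ℝ) := Nat.cast_nonneg _
    have hq1 : (1 : ℝ) < (Ideal.absNorm v.maximalIdeal.asIdeal : ℝ) := by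
      by_contra hcon
      rw [not_lt] at hcon
      have h5 : (Ideal.absNorm v.maximalIdeal.asIdeal : ℝ) ^ n ≤ 1 := pow_le_one₀ hq0 hcon
      have h6 := mul_le_mul_of_nonneg_left h5 hDp.le
      rw [hq] at h6
      linarith
    by_cases hle : n ≤ n₀
    · have hfil : ¬ v (discr f) * (Ideal.absNorm v.maximalIdeal.asIdeal : ℝ) ^ n₀ < 1 := by
        rw [not_lt, ← hq]
        exact mul_le_mul_of_nonneg_left (pow_le_pow_right₀ hq1.le hle) hDp.le
      rw [if_pos hle] at h4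
      rw [if_pos hfil, if_neg hfil, mul_zero, sub_zero]
      exact h4
    · have hfil : v (discr f) * (Ideal.absNorm v.maximalIdeal.asIdeal : ℝ) ^ n₀ < 1 := by
        rw [← hq]
        exact mul_lt_mul_of_pos_left (pow_lt_pow_right₀ hq1 (not_le.1 hle)) hDp
      rw [if_neg hle] at h4
      rw [if_neg (not_not.2 hfil), if_pos hfil, mul_zero, add_zero, sub_eq_add_neg]
      exact h4
  have hneg : ∀ v ∈ S, Real.log (v (discr f)) ≤ 0 := fun v hv =>
    Real.log_nonpos (FinitePlace.pos_iff.mpr hD0).le (hS v hv).2.le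
  have e7 := Finset.sum_filter_add_sum_filter_not S
    (fun v : FinitePlace K =>
      v (discr f) * (Ideal.absNorm v.maximalIdeal.asIdeal : ℝ) ^ n₀ < 1)
    (fun v => Real.log (v (discr f)))
  rw [hs2, add_zero] at e3
  rw [e3] at b2
  rw [← e0] at h3
  rw [← e1] at hLL
  rw [← e2] at hd
  set XI := ∑ v : InfinitePlace K, (v.mult : ℝ) * Real.log (v (discr f)) with hXI
  set XT := ∑ v ∈ T \ S, Real.log (v (discr f)) with hXT
  set XS := ∑ v ∈ S, Real.log (v (discr f)) with hXS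
  set X1 := ∑ v ∈ S with v (discr f) * (Ideal.absNorm v.maximalIdeal.asIdeal : ℝ) ^ n₀ < 1,
    Real.log (v (discr f)) with hX1
  set X2 := ∑ v ∈ S with ¬ v (discr f) * (Ideal.absNorm v.maximalIdeal.asIdeal : ℝ) ^ n₀ < 1,
    Real.log (v (discr f)) with hX2
  have hX1n : X1 ≤ 0 := Finset.sum_nonpos fun v hv => hneg v (Finset.mem_filter.1 hv).1
  have hX2n : X2 ≤ 0 := Finset.sum_nonpos fun v hv => hneg v (Finset.mem_filter.1 hv).1
  have e5 : (i : ℝ) * 10 ^ i * (XI + XT) = - ((i : ℝ) * 10 ^ i * (X1 + X2)) := by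
    have h4 : XI + XT = - (X1 + X2) := by linarith
    rw [h4]
    ring
  have e6 : (Ck + (i : ℝ) * 10 ^ i * (2 * c2 * Real.log 2)) * (Module.finrank ℚ K : ℝ) =
      Ck * Module.finrank ℚ K +
        i * 10 ^ i * (2 * c2 * (Module.finrank ℚ K * Real.log 2)) := by ring
  have e8 : 0 ≤ (i : ℝ) * 10 ^ i * (- X1) := mul_nonneg (by positivity) (by linarith)
  have e9 : 0 ≤ (i : ℝ) * 10 ^ i * (- X2) := mul_nonneg (by positivity) (by linarith)
  rw [h2] at b2
  rw [e6]
  nlinarith [b1, b2, b3, h3, hLL, e5, e8, e9]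

end Pool.Agent.KDS.H8
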